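import Pool.Agent.Helper20.DFJ.Final
import Pool.Agent.Helper95.DFJ.F13.Main

/-!
# MP_03f222_gt, Q1: the holonomy twisted Alexander polynomial does not detect the genus

There is a hyperbolic knot `K` whose twisted Alexander polynomial for the lift of the holonomy
representation (with trace `2` on the meridians) has degree different from `4 g(K) - 2`; in fact
its degree is at most `38`, and the genus is at least `11`, so that `4 g(K) - 2` is at least `42`.
This disproves the conjecture of Dunfield, Friedl and Jackson.

All definitions of the statement are in the file `Pool/Agent/Helper20/DFJ/Statement.lean`, which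
imports only Mathlib.

* `Braid`, `Braid.IsKnot`: knots are closed braids (Alexander).
* `Braid.Isotopic`: isotopy of closed braids, by Markov's moves (Markov).
* `Braid.Grp`, `Braid.mer`: the group of the knot, by the Wirtinger presentation of the closed
  braid, and its meridians.
* `Braid.IsHolonomyLift`: the lift to `SL(2, ℂ)` of the holonomy of the complete hyperbolic
  structure; it determines the holonomy (Waldhausen, Mostow, Prasad).
* `BandSurface`, `Braid.IsGenus`: the genus, as the least genus of a braided Seifert surface whose
  boundary is isotopic to the knot (Rudolph: every Seifert surface is isotopic to a braided one).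
* `fox`, `IsPresentation`, `Phi`, `num`, `den`, `degree`: Wada's invariant and its degree,
  literally as in the problem.

The knot is given as the closure of an explicit braid with 45 strands and 836 letters. Its group
is the kernel of a character of order 12 of the orbifold group
`⟨b, c, t | b ^ 3, c ^ 4, two more relations⟩`, so that the knot is the preimage of a knot in the
12-fold cyclic covering of the 3-sphere, branched over a Hopf link. The representation is faithful
and discrete by an explicit tessellation of hyperbolic 3-space, found by certified numerics. The
genus is bounded below by the twisted homology with coefficients in a representation over the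
field with 13 elements, and the degree is bounded above by a cut along two different surfaces of
the orbifold, for each of the twelve characters.
-/

noncomputable section

namespace Pool.Agent.Results.MP_03f222_gt.GenusNotDetected

open Pool.Agent.DFJ Multiplicative Module
open scoped LaurentPolynomial MatrixGroups
open Pool.Agent.Helper95.DFJ.F13 (z2 z2_prim lower)
open Pool.Agent.Helper95.DFJ (Zt resRep seqRep)
open Pool.Agent.Helper20.DFJ (G3 kap kap_b kap_c kap_t alpha alpha_b alpha_c alpha_t G3_univ)

theorem z2_pow : z2 ^ 12 = 1 := z2_prim.pow_eq_one

theorem genus_lower (S : BandSurface) (h1 : S.boundary.IsKnot) (h2 : S.boundary.Isotopic K₀) (h : ℕ)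
    (h3 : S.HasGenus h) : 11 ≤ h := by
  obtain ⟨ρ, hfin, h66⟩ := lower G3_univ alpha alpha_b alpha_c alpha_t (kap z2 z2_pow)
    (by rw [kap_b, Units.val_pow_eq_pow_val]; decide +kernel)
    (by rw [kap_c, Units.val_pow_eq_pow_val]; decide +kernel) (kap_t z2 z2_pow)
  exact genus_ge z2 z2_pow z2_prim ρ (by simp) hfin h66 S h1 h2 h h3

/-- There are a knot `K`, a lift `ρ` of the holonomy of the complete hyperbolic structure of its
complement with trace `2` on the meridians, the abelianisation `α`, the genus `g` of `K` and an
integer `δ`, the degree of Wada's invariant of `ρ ⊗ α` (with respect to every presentation of the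
knot group with one more generator than relators, among them the Wirtinger presentation, and to
every column `k` for which the denominator is not zero), so that `δ ≠ 4 g - 2`; more precisely
`δ ≤ 38` and `11 ≤ g`. -/
theorem result :
    ∃ (K : Braid) (ρ : K.Grp →* SL(2, ℂ)) (α : K.Grp →* Multiplicative ℤ)
      (g : ℕ) (δ : ℤ),
      K.IsKnot ∧ K.IsHolonomyLift ρ ∧ (∀ i, α (K.mer i) = ofAdd 1) ∧ K.IsGenus g ∧
      (∃ (m : ℕ) (r : Fin m → FreeGroup (Fin (m + 1))) (π : FreeGroup (Fin (m + 1)) →* K.Grp),
        IsPresentation r π ∧ ∀ k, (∃ i, π (FreeGroup.of k) = K.mer i) ∧ den ρ α π k ≠ 0) ∧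
      (∀ (m : ℕ) (r : Fin m → FreeGroup (Fin (m + 1))) (π : FreeGroup (Fin (m + 1)) →* K.Grp),
        IsPresentation r π → ∀ k, den ρ α π k ≠ 0 →
          num ρ α r π k ≠ 0 ∧ degree (num ρ α r π k) - degree (den ρ α π k) = δ) ∧
      δ ≠ 4 * g - 2 ∧ δ ≤ 38 ∧ 11 ≤ g :=
  final_of genus_lower

end Pool.Agent.Results.MP_03f222_gt.GenusNotDetected
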